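import Pool.Agent.X255.FB6

/-!
# Faithful blocks with few characters

The question is whether `k(B) ≥ p / log₂ p` for every faithful `p`-block `B` of positive defect of a
finite group `G` such that `p` divides `|G : F(G)|`. The answer is no, for infinitely many primes
`p`.

Blocks are taken with respect to a valuation subring `O` of `ℂ` whose maximal ideal `O.nonunits`
contains `p`; `IsBlock`, `IsDefectGroup` are the usual notions, defined in
`Pool.Agent.H254R3.IN.Defs`.
-/

namespace Pool.Agent.Results.MP_9530fa_al.FaithfulBlocks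

open Pool.Agent.H254R3.IN

/-- The Fitting subgroup: the join of all nilpotent normal subgroups. -/
def fitting (G : Type) [Group G] : Subgroup G :=
  ⨆ (N : Subgroup G) (_ : N.Normal ∧ Group.IsNilpotent N), N

/-- There are arbitrarily large primes `p` for which there is a finite group `G` with `p` dividing
`|G : F(G)|` and (for every choice `O` of the `p`-modular system) a `p`-block `B` of `G` with
nontrivial defect group and trivial kernel such that `k(B) < p / log₂ p`. -/
theorem result (N : ℕ) : ∃ p : ℕ, N < p ∧ p.Prime ∧ ∃ (G : Type) (_ : Group G) (_ : Finite G),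
    p ∣ (fitting G).index ∧ (∃ O : ValuationSubring ℂ, (p : ℂ) ∈ O.nonunits) ∧
    ∀ O : ValuationSubring ℂ, (p : ℂ) ∈ O.nonunits →
      ∃ B : Set (G → ℂ), IsBlock O B ∧ (∃ D : Subgroup G, IsDefectGroup p O B D ∧ D ≠ ⊥) ∧
        (∀ g : G, (∀ χ ∈ B, χ g = χ 1) → g = 1) ∧
        B.Finite ∧ (B.ncard : ℝ) < p / Real.logb 2 p := by
  obtain ⟨p, hN, hp, hp2, e, L, he, hL, hlt⟩ := Pool.Agent.X255.FB.arith N
  haveI : Fact p.Prime := ⟨hp⟩
  refine ⟨p, hN, hp, Pool.Agent.X255.FB.GG p (powMonoidHom e).ker, inferInstance, inferInstance,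
    Pool.Agent.X255.FB.dvd_index_fitting hp2, Pool.Agent.X255.FB.exists_place p, ?_⟩
  intro O hO
  obtain ⟨B, hB, hD, hF, hfin, hcard⟩ :=
    Pool.Agent.X255.FB.main p hp2 (powMonoidHom e : (ZMod p)ˣ →* (ZMod p)ˣ).ker O hO
  refine ⟨B, hB, hD, hF, hfin, ?_⟩
  rw [IsCyclic.card_powMonoidHom_ker, IsCyclic.index_powMonoidHom_ker, Nat.card_eq_fintype_card,
    ZMod.card_units_eq_totient, Nat.totient_prime hp, Nat.gcd_eq_right he] at hcard
  have h1 : (1 : ℝ) < p := by exact_mod_cast hp.one_lt
  have hlog : 0 < Real.logb 2 p := Real.logb_pos (by norm_num) h1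
  have hlogL : Real.logb 2 p ≤ L := by
    rw [Real.logb_le_iff_le_rpow (by norm_num) (by linarith), Real.rpow_natCast]
    exact_mod_cast hL
  rw [lt_div_iff₀ hlog]
  have h2 : (B.ncard : ℝ) ≤ ((e + (p - 1) / e : ℕ) : ℝ) := by exact_mod_cast hcard
  calc (B.ncard : ℝ) * Real.logb 2 p ≤ ((e + (p - 1) / e : ℕ) : ℝ) * L :=
        mul_le_mul h2 hlogL hlog.le (by positivity)
    _ < p := by exact_mod_cast hlt

end Pool.Agent.Results.MP_9530fa_al.FaithfulBlocks
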